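import Pool.Agent.N566.VV.Defs3
import Pool.Agent.N346.VV.Tw

/-!
# Framing factors of closures of (1,1)-tangle diagrams (S_FRM)

Project VV (helper566); this file by helper402.
-/

set_option autoImplicit false

namespace Pool.Agent.N402.VV

open Pool.Agent.H835R2.Knot
open Pool.Agent.H550R3.Jones (br brf Adm crossP crossN)
open Pool.Agent.N566.VV
open Pool.Agent.N346.VV (opD_append opD_smul Bl_smul Rep plain_birth plain_death)

/-- a piece -/
theorem piece (N : ℕ) (P : Pc) (D : Word) (A : Front) (h : D.map plain = pcW P) :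
    ∃ e : ℤ, ∀ v : ℂ, Adm N v → ∀ f : F (Fin N),
      opD (datJ N v) D A f = v ^ e • P.fn N v f := by
  cases P with
  | cup i =>
    obtain ⟨p, w, rfl, hp, hw⟩ := List.map_eq_cons_iff.1 h
    rw [List.map_eq_nil_iff] at hw
    subst hw
    rw [plain_death hp]
    refine ⟨0, fun v _ f => ?_⟩
    rw [zpow_zero, one_smul]
    rfl
  | cap i =>
    obtain ⟨p, w, rfl, hp, hw⟩ := List.map_eq_cons_iff.1 h
    rw [List.map_eq_nil_iff] at hw
    subst hw
    obtain ⟨b, rfl⟩ := plain_birth hp
    refine ⟨0, fun v _ f => ?_⟩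
    rw [zpow_zero, one_smul]
    rfl
  | tw i s m =>
    cases s with
    | true => exact Rep.posN N i m D A h
    | false => exact Rep.negN N i m D A h

theorem runF_append (N : ℕ) (v : ℂ) (T : List Pc) (P : Pc) (f : F (Fin N)) :
    runF N v (T ++ [P]) f = P.fn N v (runF N v T f) := by
  unfold runF
  rw [List.foldl_append]
  rfl

/-- a word -/
theorem word (N : ℕ) (T : List Pc) : ∀ (D : Word) (A : Front),
    D.map plain = (T.reverse.map pcW).flatten → ∃ e : ℤ, ∀ v : ℂ, Adm N v → ∀ f : F (Fin N),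
      opD (datJ N v) D A f = v ^ e • runF N v T f := by
  induction T using List.reverseRecOn with
  | nil =>
    intro D A h
    have h1 : D = [] := by
      rw [List.reverse_nil, List.map_nil, List.flatten_nil, List.map_eq_nil_iff] at h
      exact h
    subst h1
    refine ⟨0, fun v _ f => ?_⟩
    rw [zpow_zero, one_smul]
    rfl
  | append_singleton T P ih =>
    intro D A h
    rw [List.reverse_append, List.reverse_singleton, List.singleton_append, List.map_cons,
      List.flatten_cons, List.map_eq_append_iff] at h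
    obtain ⟨D1, D2, rfl, h1, h2⟩ := h
    obtain ⟨e1, he1⟩ := piece N P D1 A h1
    obtain ⟨e2, he2⟩ := ih D2 (run D1 A) h2
    refine ⟨e2 + e1, fun v hv f => ?_⟩
    rw [opD_append, he2 v hv, opD_smul, he1 v hv, smul_smul, ← zpow_add₀ hv.1, runF_append]

theorem s_frm : S_FRM := by
  intro N _ T D h
  unfold closeW at h
  obtain ⟨p, w, rfl, hp, hw⟩ := List.map_eq_cons_iff.1 h
  rw [List.map_eq_append_iff] at hw
  obtain ⟨D1, D2, rfl, h1, h2⟩ := hw
  obtain ⟨q, w', rfl, hq, hw'⟩ := List.map_eq_cons_iff.1 h2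
  rw [List.map_eq_nil_iff] at hw'
  subst hw'
  rw [plain_death hq]
  obtain ⟨b, rfl⟩ := plain_birth hp
  obtain ⟨e, he⟩ := word N T D1 ((Piece.birth 0 b).act Front.empty) h1
  refine ⟨e, fun v hv σ => ?_⟩
  have key : opD (datJ N v) (.birth 0 b :: (D1 ++ [.death 0])) Front.empty (fun _ => 1) =
      Bl (datJ N v) 0 (opD (datJ N v) D1 ((Piece.birth 0 b).act Front.empty)
        (Dl (datJ N v) 0 fun _ => 1)) := by
    change Bl (datJ N v) 0 (opD (datJ N v) (D1 ++ [.death 0])
      ((Piece.birth 0 b).act Front.empty) fun _ => 1) = _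
    rw [opD_append]
    rfl
  unfold val
  rw [key, he v hv, Bl_smul]
  rfl

end Pool.Agent.N402.VV
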